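import Mathlib

/-!
# Nonlinear three-point patterns in Cantor sets of thickness larger than one
-/

open Set Filter Topology

namespace Pool.Agent.Results.MP_4ff6b6_an.ThreePoint

/-- `(a, b)` is a bounded gap of the (closed) set `K`. -/
def IsGap (K : Set ℝ) (a b : ℝ) : Prop := a < b ∧ a ∈ K ∧ b ∈ K ∧ ∀ x ∈ Ioo a b, x ∉ K

/-- The right end of the bridge at the right endpoint `b` of the gap `(a, b)`: the left endpoint
of the nearest bounded gap to the right of `b` of length at least `b - a`, or `max K`. -/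
noncomputable def bridgeR (K : Set ℝ) (a b : ℝ) : ℝ :=
  sInf (insert (sSup K) {c | ∃ d, IsGap K c d ∧ b ≤ c ∧ b - a ≤ d - c})

/-- The left end of the bridge at the left endpoint `a` of the gap `(a, b)`. -/
noncomputable def bridgeL (K : Set ℝ) (a b : ℝ) : ℝ :=
  sSup (insert (sInf K) {d | ∃ c, IsGap K c d ∧ d ≤ a ∧ b - a ≤ d - c})

/-- The Newhouse thickness. -/
noncomputable def thickness (K : Set ℝ) : ℝ :=
  sInf {r | ∃ a b, IsGap K a b ∧
    (r = (bridgeR K a b - b) / (b - a) ∨ r = (a - bridgeL K a b) / (b - a))}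

/-- Cantor sets: nonempty, compact, perfect, totally disconnected. -/
def IsCantor (K : Set ℝ) : Prop :=
  K.Nonempty ∧ IsCompact K ∧ Perfect K ∧ IsTotallyDisconnected K

/-! ### Gaps -/

lemma exists_gap {C : Set ℝ} (hC : IsCompact C) {x y z : ℝ} (hy : y ∈ C) (hyx : y < x) (hx : x ∉ C)
    (hz : z ∈ C) (hxz : x < z) : ∃ p q, IsGap C p q ∧ y ≤ p ∧ p < x ∧ x < q ∧ q ≤ z := by
  have h1 : IsCompact (C ∩ Iic x) := hC.inter_right isClosed_Iic
  have h2 : IsCompact (C ∩ Ici x) := hC.inter_right isClosed_Ici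
  have n1 : (C ∩ Iic x).Nonempty := ⟨y, hy, hyx.le⟩
  have n2 : (C ∩ Ici x).Nonempty := ⟨z, hz, hxz.le⟩
  have m1 := h1.sSup_mem n1
  have m2 := h2.sInf_mem n2
  have e1 : sSup (C ∩ Iic x) < x := lt_of_le_of_ne m1.2 (fun h => hx (h ▸ m1.1))
  have e2 : x < sInf (C ∩ Ici x) := lt_of_le_of_ne m2.2 (fun h => hx (h ▸ m2.1))
  refine ⟨sSup (C ∩ Iic x), sInf (C ∩ Ici x), ⟨e1.trans e2, m1.1, m2.1, ?_⟩,
    le_csSup h1.bddAbove ⟨hy, hyx.le⟩, e1, e2, csInf_le h2.bddBelow ⟨hz, hxz.le⟩⟩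
  rintro w ⟨hw1, hw2⟩ hw
  rcases le_total w x with h | h
  · exact absurd (le_csSup h1.bddAbove ⟨hw, h⟩) (not_le.2 hw1)
  · exact absurd (csInf_le h2.bddBelow ⟨hw, h⟩) (not_le.2 hw2)

/-- Two gaps that are not equal are ordered. -/
lemma IsGap.le_of_lt {K : Set ℝ} {a b c d : ℝ} (h : IsGap K a b) (h' : IsGap K c d)
    (hac : a < c) : b ≤ c := by
  by_contra hc
  push Not at hc
  exact h.2.2.2 c ⟨hac, hc⟩ h'.2.1

/-- The gap lemma. -/
lemma gap_lemma {K C : Set ℝ} (hK : IsCompact K) (hC : IsCompact C) {τ₁ τ₂ : ℝ} (h1 : 0 < τ₁)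
    (h2 : 0 < τ₂) (h12 : 1 < τ₁ * τ₂)
    (Kpair : ∀ a b c d, IsGap K a b → IsGap K c d → b ≤ c → τ₁ * min (b - a) (d - c) ≤ c - b)
    (Kright : ∀ a b, IsGap K a b → τ₁ * (b - a) ≤ sSup K - b)
    (Cpair : ∀ a b c d, IsGap C a b → IsGap C c d → b ≤ c → τ₂ * min (b - a) (d - c) ≤ c - b)
    (Cright : ∀ a b, IsGap C a b → τ₂ * (b - a) ≤ sSup C - b)
    {u v : ℝ} (huv : IsGap K u v) (huC : u ∈ C)
    (Cleft : ∀ a b, IsGap C a b → u ≤ a → τ₂ * (b - a) ≤ a - u)
    (hv : v ≤ sSup C) : ∃ z, z ∈ K ∧ z ∈ C ∧ v ≤ z := by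
  by_contra hcon
  push Not at hcon
  have hno : ∀ z, z ∈ K → z ∈ C → z < v := hcon
  have Cne : C.Nonempty := ⟨u, huC⟩
  have Kne : K.Nonempty := ⟨u, huv.2.1⟩
  have CM := hC.sSup_mem Cne
  have KM := hK.sSup_mem Kne
  -- the invariant
  obtain ⟨κ, hκ⟩ : ∃ κ, κ = (τ₁ * τ₂)⁻¹ := ⟨_, rfl⟩
  have hκ0 : 0 < κ := by rw [hκ]; positivity
  have hκ1 : κ < 1 := by rw [hκ]; exact inv_lt_one_of_one_lt₀ h12
  have key : ∀ n : ℕ, ∃ u' v' p q, IsGap K u' v' ∧ v ≤ v' ∧ IsGap C p q ∧ u' < p ∧ p < v' ∧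
      v' < q ∧ τ₂ * (q - p) < v' - u' ∧ q - p ≤ κ ^ n * ((v - u) / τ₂) := by
    intro n
    induction n with
    | zero =>
      have hvC : v ∉ C := fun h => lt_irrefl _ (hno v huv.2.2.1 h)
      have hvM : v < sSup C := lt_of_le_of_ne hv (fun h => hvC (by rw [h]; exact CM))
      obtain ⟨p, q, hg, h3, h4, h5, -⟩ := exists_gap hC huC huv.1 hvC CM hvM
      have h6 := Cleft p q hg h3
      have h7 : 0 < q - p := sub_pos.2 hg.1
      have h8 : 0 < τ₂ * (q - p) := mul_pos h2 h7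
      refine ⟨u, v, p, q, huv, le_rfl, hg, by linarith, h4, h5, by linarith, ?_⟩
      rw [pow_zero, one_mul, le_div_iff₀ h2]
      linarith
    | succ n ih =>
      obtain ⟨u', v', p, q, hU, hvv, hV, hup, hpv, hvq, hlen, hbd⟩ := ih
      have hqp : 0 < q - p := sub_pos.2 hV.1
      have hU0 : 0 < v' - u' := sub_pos.2 hU.1
      -- comparison facts
      have contra1 : ¬ τ₁ * (v' - u') < q - p := by
        intro h
        have h3 : τ₂ * (τ₁ * (v' - u')) < τ₂ * (q - p) := mul_lt_mul_of_pos_left h h2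
        have h4 : τ₁ * τ₂ * (v' - u') < v' - u' := by linarith
        have h5 : 1 * (v' - u') < τ₁ * τ₂ * (v' - u') := mul_lt_mul_of_pos_right h12 hU0
        linarith
      have hqK : q ∉ K := fun h => by
        have := hno q h hV.2.2.1
        linarith
      have hqM : q < sSup K := by
        by_contra hc
        push Not at hc
        have := Kright u' v' hU
        apply contra1
        linarith
      obtain ⟨u2, v2, hU2, h3, h4, h5, -⟩ := exists_gap hK hU.2.2.1 hvq hqK KM hqM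
      have hU20 : 0 < v2 - u2 := sub_pos.2 hU2.1
      have h6 := Kpair u' v' u2 v2 hU hU2 h3
      have h7 : τ₁ * (v2 - u2) < q - p := by
        rcases le_total (v' - u') (v2 - u2) with h | h
        · rw [min_eq_left h] at h6
          exact absurd (by linarith) contra1
        · rw [min_eq_right h] at h6
          linarith
      have contra2 : ¬ τ₂ * (q - p) < v2 - u2 := by
        intro h
        have h3 : τ₁ * (τ₂ * (q - p)) < τ₁ * (v2 - u2) := mul_lt_mul_of_pos_left h h1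
        have h5 : 1 * (q - p) < τ₁ * τ₂ * (q - p) := mul_lt_mul_of_pos_right h12 hqp
        linarith
      have hvC : v2 ∉ C := fun h => by
        have := hno v2 hU2.2.2.1 h
        linarith
      have hvM : v2 < sSup C := by
        by_contra hc
        push Not at hc
        have := Cright p q hV
        apply contra2
        linarith
      obtain ⟨p2, q2, hV2, h8, h9, h10, -⟩ := exists_gap hC hV.2.2.1 h5 hvC CM hvM
      have h11 := Cpair p q p2 q2 hV hV2 h8
      have h12' : τ₂ * (q2 - p2) < v2 - u2 := by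
        rcases le_total (q - p) (q2 - p2) with h | h
        · rw [min_eq_left h] at h11
          exact absurd (by linarith) contra2
        · rw [min_eq_right h] at h11
          linarith
      refine ⟨u2, v2, p2, q2, hU2, by linarith, hV2, by linarith, h9, h10, h12', ?_⟩
      have h13 : τ₁ * τ₂ * (q2 - p2) < q - p := by
        have := mul_lt_mul_of_pos_left h12' h1
        linarith
      have h14 : q2 - p2 ≤ κ * (q - p) := by
        rw [hκ, inv_mul_eq_div, le_div_iff₀ (by positivity)]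
        linarith
      calc q2 - p2 ≤ κ * (q - p) := h14
        _ ≤ κ * (κ ^ n * ((v - u) / τ₂)) := mul_le_mul_of_nonneg_left hbd hκ0.le
        _ = _ := by rw [pow_succ]; ring
  -- positive distance
  have hdis : Disjoint (K ∩ Ici v) (C ∩ Ici v) := by
    rw [Set.disjoint_left]
    rintro z ⟨hz1, hz2⟩ ⟨hz3, -⟩
    exact absurd (hno z hz1 hz3) (not_lt.2 hz2)
  obtain ⟨r, hr, hdist⟩ := Metric.exists_pos_forall_lt_edist (hK.inter_right isClosed_Ici)
    (hC.isClosed.inter isClosed_Ici) hdis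
  have hr' : (0 : ℝ) < r := hr
  have hvu : 0 < (v - u) / τ₂ := div_pos (sub_pos.2 huv.1) h2
  obtain ⟨n, hn⟩ := exists_pow_lt_of_lt_one (div_pos hr' hvu) hκ1
  obtain ⟨u', v', p, q, hU, hvv, hV, hup, hpv, hvq, hlen, hbd⟩ := key n
  have h3 := hdist v' ⟨hU.2.2.1, hvv⟩ q ⟨hV.2.2.1, by
    rw [mem_Ici]; linarith⟩
  rw [edist_dist, Real.dist_eq, abs_of_neg (by linarith)] at h3
  have h4 : (r : ℝ) < -(v' - q) := by
    have h5 : ENNReal.ofReal (r : ℝ) < ENNReal.ofReal (-(v' - q)) := by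
      rwa [ENNReal.ofReal_coe_nnreal]
    exact (ENNReal.ofReal_lt_ofReal_iff_of_nonneg hr'.le).1 h5
  rw [lt_div_iff₀ hvu] at hn
  linarith

/-! ### The set of hypotheses used -/

/-- The consequences of thickness used in the proof. -/
structure Nice (τ : ℝ) (K : Set ℝ) : Prop where
  compact : IsCompact K
  ne : K.Nonempty
  acc : ∀ x ∈ K, ∀ ε > 0, ∃ y ∈ K, y ≠ x ∧ |y - x| < ε
  hole : ∀ x ∈ K, ∀ y ∈ K, x < y → ∃ z ∈ Ioo x y, z ∉ K
  pair : ∀ a b c d, IsGap K a b → IsGap K c d → b ≤ c → τ * min (b - a) (d - c) ≤ c - b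
  right : ∀ a b, IsGap K a b → τ * (b - a) ≤ sSup K - b
  left : ∀ a b, IsGap K a b → τ * (b - a) ≤ a - sInf K

lemma main {τ : ℝ} {K : Set ℝ} (hτ : 1 < τ) (hK : Nice τ K) (g : ℝ → ℝ) (g0 : g 0 = 0) {m : ℝ}
    (hm : 1 ≤ m)
    (hg : ∀ ε > 0, ∃ r > 0, ∀ s t, 0 ≤ s → s ≤ t → t ≤ r →
      |g t - g s - m * (t - s)| ≤ ε * (t - s)) {ρ : ℝ} (hρ : 0 < ρ) :
    ∃ x t, 0 < t ∧ t < ρ ∧ x - t ∈ K ∧ x ∈ K ∧ x + g t ∈ K := by
  have hτ0 : 0 < τ := by linarith
  obtain ⟨θ, hθ⟩ : ∃ θ, θ = (1 + 1 / τ) / 2 := ⟨_, rfl⟩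
  have hinv : 1 / τ < 1 := by rw [div_lt_one hτ0]; exact hτ
  have hinv0 : 0 < 1 / τ := by positivity
  have hθ1 : θ < 1 := by rw [hθ]; linarith
  have hθ0 : 0 < θ := by rw [hθ]; linarith
  have hθτ : 1 < θ * τ := by
    have : 1 / τ < θ := by rw [hθ]; linarith
    rwa [div_lt_iff₀ hτ0] at this
  -- the distortion constants
  obtain ⟨ε, hε⟩ : ∃ ε, ε = (1 - θ) / 2 := ⟨_, rfl⟩
  have hε0 : 0 < ε := by rw [hε]; linarith
  obtain ⟨A, hA⟩ : ∃ A, A = m - ε := ⟨_, rfl⟩
  obtain ⟨B, hB⟩ : ∃ B, B = m + ε := ⟨_, rfl⟩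
  have hAB : θ * B ≤ A := by
    rw [hA, hB]
    nlinarith
  have hθA : θ ≤ A := by rw [hA]; linarith
  have hA0 : 0 < A := by linarith
  have hB0 : 0 < B := by rw [hB]; linarith
  obtain ⟨r₀, hr₀, hgr⟩ := hg ε hε0
  have hgA : ∀ s t, 0 ≤ s → s ≤ t → t ≤ r₀ → A * (t - s) ≤ g t - g s := by
    intro s t h1 h2 h3
    have := (abs_le.1 (hgr s t h1 h2 h3)).1
    rw [hA]; linarith
  have hgB : ∀ s t, 0 ≤ s → s ≤ t → t ≤ r₀ → g t - g s ≤ B * (t - s) := by
    intro s t h1 h2 h3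
    have := (abs_le.1 (hgr s t h1 h2 h3)).2
    rw [hB]; linarith
  -- a gap
  obtain ⟨a, b, hab⟩ : ∃ a b, IsGap K a b := by
    obtain ⟨x, hx⟩ := hK.ne
    obtain ⟨y, hy, hyx, -⟩ := hK.acc x hx 1 one_pos
    rcases lt_or_gt_of_ne hyx with h | h
    · obtain ⟨z, hz, hzK⟩ := hK.hole y hy x hx h
      obtain ⟨p, q, hpq, -⟩ := exists_gap hK.compact hy hz.1 hzK hx hz.2
      exact ⟨p, q, hpq⟩
    · obtain ⟨z, hz, hzK⟩ := hK.hole x hx y hy h
      obtain ⟨p, q, hpq, -⟩ := exists_gap hK.compact hx hz.1 hzK hy hz.2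
      exact ⟨p, q, hpq⟩
  have hba : 0 < b - a := sub_pos.2 hab.1
  obtain ⟨δ, hδ⟩ : ∃ δ, δ = min (min ρ r₀) (b - a) := ⟨_, rfl⟩
  have hδ0 : 0 < δ := by rw [hδ]; exact lt_min (lt_min hρ hr₀) hba
  have hδρ : δ ≤ ρ := by rw [hδ]; exact (min_le_left _ _).trans (min_le_left _ _)
  have hδr : δ ≤ r₀ := by rw [hδ]; exact (min_le_left _ _).trans (min_le_right _ _)
  have hδb : δ ≤ b - a := by rw [hδ]; exact min_le_right _ _
  -- gaps close to `b`
  have hnear : ∀ c d, IsGap K c d → b ≤ c → c < b + δ → τ * (d - c) ≤ c - b := by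
    intro c d hcd hbc hc
    have h1 := hK.pair a b c d hab hcd hbc
    rcases le_total (b - a) (d - c) with h | h
    · rw [min_eq_left h] at h1
      have : 1 * (b - a) < τ * (b - a) := mul_lt_mul_of_pos_right hτ hba
      linarith
    · rwa [min_eq_right h] at h1
  obtain ⟨L, hL⟩ : ∃ L, L = sSup {l | ∃ c d, IsGap K c d ∧ b ≤ c ∧ c < b + δ ∧ l = d - c} :=
    ⟨_, rfl⟩
  have hbdd : BddAbove {l | ∃ c d, IsGap K c d ∧ b ≤ c ∧ c < b + δ ∧ l = d - c} := by
    refine ⟨δ, ?_⟩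
    rintro l ⟨c, d, hcd, hbc, hc, rfl⟩
    have h1 := hnear c d hcd hbc hc
    have : 1 * (d - c) ≤ τ * (d - c) := mul_le_mul_of_nonneg_right hτ.le (sub_pos.2 hcd.1).le
    linarith
  obtain ⟨l₀, hl₀⟩ : {l | ∃ c d, IsGap K c d ∧ b ≤ c ∧ c < b + δ ∧ l = d - c}.Nonempty := by
    obtain ⟨k, hk, hkb, hkδ⟩ := hK.acc b hab.2.2.1 (min δ (b - a)) (lt_min hδ0 hba)
    have hbk : b < k := by
      rcases lt_or_gt_of_ne hkb with h | h
      · exfalso
        rw [abs_of_neg (by linarith)] at hkδ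
        have := hkδ.trans_le (min_le_right _ _)
        exact hab.2.2.2 k ⟨by linarith, h⟩ hk
      · exact h
    rw [abs_of_pos (by linarith)] at hkδ
    have hkδ' := hkδ.trans_le (min_le_left _ _)
    obtain ⟨z, hz, hzK⟩ := hK.hole b hab.2.2.1 k hk hbk
    obtain ⟨p, q, hpq, h1, h2, h3, h4⟩ := exists_gap hK.compact hab.2.2.1 hz.1 hzK hk hz.2
    exact ⟨q - p, p, q, hpq, h1, by linarith [hz.2], rfl⟩
  have hL0 : 0 < L := by
    obtain ⟨c, d, hcd, h1, h2, h3⟩ := hl₀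
    have h4 : 0 < d - c := sub_pos.2 hcd.1
    have : l₀ ≤ L := by rw [hL]; exact le_csSup hbdd ⟨c, d, hcd, h1, h2, h3⟩
    linarith
  obtain ⟨_, ⟨u, v, huv, hbu, huδ, rfl⟩, hlen⟩ :=
    exists_lt_of_lt_csSup ⟨l₀, hl₀⟩ (show θ * L < sSup _ by rw [← hL]; nlinarith)
  have hLmax : ∀ c d, IsGap K c d → b ≤ c → c < b + δ → d - c ≤ L := by
    intro c d h1 h2 h3
    rw [hL]; exact le_csSup hbdd ⟨c, d, h1, h2, h3, rfl⟩
  have hvu0 : 0 < v - u := sub_pos.2 huv.1
  have hub := hnear u v huv hbu huδ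
  have hbu' : b < u := by
    have : 0 < τ * (v - u) := mul_pos hτ0 hvu0
    linarith
  -- the image set
  obtain ⟨φ, hφ⟩ : ∃ φ : ℝ → ℝ, φ = fun y => u + g (u - y) := ⟨_, rfl⟩
  have hφA : ∀ y z, b ≤ y → y ≤ z → z ≤ u → A * (z - y) ≤ φ y - φ z := by
    intro y z h1 h2 h3
    have := hgA (u - z) (u - y) (by linarith) (by linarith) (by linarith)
    rw [hφ]; simp only; linarith
  have hφB : ∀ y z, b ≤ y → y ≤ z → z ≤ u → φ y - φ z ≤ B * (z - y) := by
    intro y z h1 h2 h3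
    have := hgB (u - z) (u - y) (by linarith) (by linarith) (by linarith)
    rw [hφ]; simp only; linarith
  have hφu : φ u = u := by rw [hφ]; simp [g0]
  obtain ⟨C, hC⟩ : ∃ C, C = φ '' (K ∩ Icc b u) := ⟨_, rfl⟩
  have hφc : ContinuousOn φ (Icc b u) := by
    rw [Metric.continuousOn_iff]
    intro y hy e he
    refine ⟨e / B, div_pos he hB0, fun z hz hd => ?_⟩
    rw [Real.dist_eq, lt_div_iff₀ hB0] at hd
    rw [Real.dist_eq]
    rcases le_total y z with h | h
    · have h1 := hφA y z hy.1 h hz.2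
      have h2 := hφB y z hy.1 h hz.2
      have h3 : 0 ≤ A * (z - y) := mul_nonneg hA0.le (by linarith)
      rw [abs_sub_comm, abs_of_nonneg (by linarith)]
      rw [abs_of_nonneg (by linarith)] at hd
      linarith
    · have h1 := hφA z y hz.1 h hy.2
      have h2 := hφB z y hz.1 h hy.2
      have h3 : 0 ≤ A * (y - z) := mul_nonneg hA0.le (by linarith)
      rw [abs_of_nonneg (by linarith)]
      rw [abs_of_nonpos (by linarith)] at hd
      linarith
  have hCc : IsCompact C := by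
    rw [hC]
    exact (hK.compact.inter_right isClosed_Icc).image_of_continuousOn
      (hφc.mono inter_subset_right)
  have hbC : φ b ∈ C := by rw [hC]; exact ⟨b, ⟨hab.2.2.1, le_rfl, hbu⟩, rfl⟩
  have huC : u ∈ C := by rw [hC]; exact ⟨u, ⟨huv.2.1, hbu, le_rfl⟩, hφu⟩
  have hsup : sSup C = φ b := by
    apply le_antisymm
    · apply csSup_le ⟨_, hbC⟩
      intro w hw
      rw [hC] at hw
      obtain ⟨y, hy, rfl⟩ := hw
      have := hφA b y le_rfl hy.2.1 hy.2.2
      have h3 : 0 ≤ A * (y - b) := mul_nonneg hA0.le (by linarith [hy.2.1])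
      linarith
    · exact le_csSup hCc.bddAbove hbC
  -- gaps of the image
  have hgap : ∀ p q, IsGap C p q → ∃ c d, IsGap K c d ∧ b ≤ c ∧ d ≤ u ∧ p = φ d ∧ q = φ c := by
    rintro p q ⟨hpq, hp, hq, hno⟩
    rw [hC] at hp hq
    obtain ⟨d, hd, rfl⟩ := hp
    obtain ⟨c, hc, rfl⟩ := hq
    have hcd : c < d := by
      by_contra h
      push Not at h
      have := hφA d c hd.2.1 h hc.2.2
      have h3 : 0 ≤ A * (c - d) := mul_nonneg hA0.le (by linarith)
      linarith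
    refine ⟨c, d, ⟨hcd, hc.1, hd.1, ?_⟩, hc.2.1, hd.2.2, rfl, rfl⟩
    intro y hy hyK
    have hyb : b ≤ y := hc.2.1.trans hy.1.le
    have hyu : y ≤ u := hy.2.le.trans hd.2.2
    have h1 := hφA c y hc.2.1 hy.1.le hyu
    have h2 := hφA y d hyb hy.2.le hd.2.2
    have h3 : 0 < A * (y - c) := mul_pos hA0 (by linarith [hy.1])
    have h4 : 0 < A * (d - y) := mul_pos hA0 (by linarith [hy.2])
    exact hno (φ y) ⟨by linarith, by linarith⟩ (by rw [hC]; exact ⟨y, ⟨hyK, hyb, hyu⟩, rfl⟩)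
  obtain ⟨τ₂, hτ₂⟩ : ∃ τ₂, τ₂ = τ * θ * θ := ⟨_, rfl⟩
  have hτ₂0 : 0 < τ₂ := by rw [hτ₂]; positivity
  have hττ : 1 < τ * τ₂ := by
    rw [hτ₂]
    nlinarith
  -- comparison
  have hcmp : ∀ l D : ℝ, 0 ≤ l → τ * θ * l ≤ D → τ₂ * (B * l) ≤ A * D := by
    intro l D h1 h2
    calc τ₂ * (B * l) = (θ * B) * (τ * θ * l) := by rw [hτ₂]; ring
      _ ≤ A * (τ * θ * l) := mul_le_mul_of_nonneg_right hAB (by positivity)
      _ ≤ A * D := mul_le_mul_of_nonneg_left h2 hA0.le
  obtain ⟨z, hzK, hzC, hvz⟩ := gap_lemma hK.compact hCc hτ0 hτ₂0 hττ hK.pair hK.right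
    (by
      intro p q p' q' h1 h2 h3
      obtain ⟨c, d, hcd, hbc, hdu, rfl, rfl⟩ := hgap p q h1
      obtain ⟨c', d', hcd', hbc', hdu', rfl, rfl⟩ := hgap p' q' h2
      have hcc : d' ≤ c := by
        by_contra hc
        push Not at hc
        have := hφA c d' hbc hc.le hdu'
        have h4 : 0 < A * (d' - c) := mul_pos hA0 (by linarith)
        linarith
      have h4 := hK.pair c' d' c d hcd' hcd hcc
      have h5 := hφA d' c (by linarith [hcd'.1]) hcc (by linarith [hcd.1])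
      have h6 := hφB c d hbc hcd.1.le hdu
      have h7 := hφB c' d' hbc' hcd'.1.le hdu'
      have h8 : min (φ c - φ d) (φ c' - φ d') ≤ B * min (d' - c') (d - c) := by
        rcases le_total (d' - c') (d - c) with h | h
        · rw [min_eq_left h]; exact (min_le_right _ _).trans h7
        · rw [min_eq_right h]; exact (min_le_left _ _).trans h6
      have h9 : 0 ≤ min (d' - c') (d - c) :=
        le_min (sub_nonneg.2 hcd'.1.le) (sub_nonneg.2 hcd.1.le)
      have h10 := hcmp (min (d' - c') (d - c)) (c - d') h9 (by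
        calc τ * θ * min (d' - c') (d - c) = θ * (τ * min (d' - c') (d - c)) := by ring
          _ ≤ 1 * (τ * min (d' - c') (d - c)) := mul_le_mul_of_nonneg_right hθ1.le (by positivity)
          _ ≤ _ := by rw [one_mul]; exact h4)
      calc τ₂ * min (φ c - φ d) (φ c' - φ d') ≤ τ₂ * (B * min (d' - c') (d - c)) :=
            mul_le_mul_of_nonneg_left h8 hτ₂0.le
        _ ≤ _ := h10.trans h5)
    (by
      intro p q h1
      obtain ⟨c, d, hcd, hbc, hdu, rfl, rfl⟩ := hgap p q h1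
      rw [hsup]
      have h2 := hnear c d hcd hbc (by linarith [hcd.1])
      have h3 := hφA b c le_rfl hbc (by linarith [hcd.1])
      have h4 := hφB c d hbc hcd.1.le hdu
      have h5 : 0 ≤ d - c := sub_nonneg.2 hcd.1.le
      have h6 := hcmp (d - c) (c - b) h5 (by
        calc τ * θ * (d - c) = θ * (τ * (d - c)) := by ring
          _ ≤ 1 * (τ * (d - c)) := mul_le_mul_of_nonneg_right hθ1.le (by positivity)
          _ ≤ _ := by rw [one_mul]; exact h2)
      calc τ₂ * (φ c - φ d) ≤ τ₂ * (B * (d - c)) := mul_le_mul_of_nonneg_left h4 hτ₂0.le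
        _ ≤ _ := h6.trans h3)
    huv huC
    (by
      intro p q h1 hup
      obtain ⟨c, d, hcd, hbc, hdu, rfl, rfl⟩ := hgap p q h1
      have h2 := hK.pair c d u v hcd huv hdu
      have h3 := hφA d u (by linarith [hcd.1]) hdu le_rfl
      rw [hφu] at h3
      have h4 := hφB c d hbc hcd.1.le hdu
      have h5 : 0 ≤ d - c := sub_nonneg.2 hcd.1.le
      have h6 := hLmax c d hcd hbc (by linarith [hcd.1])
      have h7 : θ * (d - c) ≤ min (d - c) (v - u) := by
        apply le_min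
        · calc θ * (d - c) ≤ 1 * (d - c) := mul_le_mul_of_nonneg_right hθ1.le h5
            _ = _ := one_mul _
        · calc θ * (d - c) ≤ θ * L := mul_le_mul_of_nonneg_left h6 hθ0.le
            _ ≤ _ := hlen.le
      have h8 := hcmp (d - c) (u - d) h5 (by
        calc τ * θ * (d - c) = τ * (θ * (d - c)) := by ring
          _ ≤ τ * min (d - c) (v - u) := mul_le_mul_of_nonneg_left h7 hτ0.le
          _ ≤ _ := h2)
      calc τ₂ * (φ c - φ d) ≤ τ₂ * (B * (d - c)) := mul_le_mul_of_nonneg_left h4 hτ₂0.le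
        _ ≤ _ := h8.trans h3)
    (by
      rw [hsup]
      have h2 := hφA b u le_rfl hbu le_rfl
      rw [hφu] at h2
      have h3 : 1 ≤ A * τ := by nlinarith
      have h4 : 1 * (v - u) ≤ A * τ * (v - u) := mul_le_mul_of_nonneg_right h3 hvu0.le
      have h5 : A * (τ * (v - u)) ≤ A * (u - b) := mul_le_mul_of_nonneg_left hub hA0.le
      linarith)
  rw [hC] at hzC
  obtain ⟨y, hy, rfl⟩ := hzC
  have hyu : y < u := by
    rcases hy.2.2.eq_or_lt with h | h
    · rw [h, hφu] at hvz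
      linarith
    · exact h
  refine ⟨u, u - y, by linarith, by linarith [hy.2.1], ?_, huv.2.1, ?_⟩
  · rw [sub_sub_cancel]; exact hy.1
  · rw [hφ] at hzK; exact hzK

/-! ### Thickness gives `Nice` -/

lemma le_bridgeR {K : Set ℝ} (hK : IsCompact K) {a b : ℝ} (h : IsGap K a b) :
    b ≤ bridgeR K a b := by
  apply le_csInf (insert_nonempty _ _)
  rintro c (rfl | ⟨d, -, hc, -⟩)
  · exact le_csSup hK.bddAbove h.2.2.1
  · exact hc

lemma bdd_bridgeR {K : Set ℝ} (hK : IsCompact K) {a b : ℝ} (h : IsGap K a b) :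
    BddBelow (insert (sSup K) {c | ∃ d, IsGap K c d ∧ b ≤ c ∧ b - a ≤ d - c}) := by
  refine ⟨b, ?_⟩
  rintro c (rfl | ⟨d, -, hc, -⟩)
  · exact le_csSup hK.bddAbove h.2.2.1
  · exact hc

lemma bridgeL_le {K : Set ℝ} (hK : IsCompact K) {a b : ℝ} (h : IsGap K a b) :
    bridgeL K a b ≤ a := by
  apply csSup_le (insert_nonempty _ _)
  rintro c (rfl | ⟨d, -, hc, -⟩)
  · exact csInf_le hK.bddBelow h.2.1
  · exact hc

lemma bdd_bridgeL {K : Set ℝ} (hK : IsCompact K) {a b : ℝ} (h : IsGap K a b) :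
    BddAbove (insert (sInf K) {d | ∃ c, IsGap K c d ∧ d ≤ a ∧ b - a ≤ d - c}) := by
  refine ⟨a, ?_⟩
  rintro c (rfl | ⟨d, -, hc, -⟩)
  · exact csInf_le hK.bddBelow h.2.1
  · exact hc

lemma thickness_le {K : Set ℝ} (hK : IsCompact K) {a b : ℝ} (h : IsGap K a b) :
    thickness K * (b - a) ≤ bridgeR K a b - b ∧ thickness K * (b - a) ≤ a - bridgeL K a b := by
  have hbdd : BddBelow {r | ∃ a b, IsGap K a b ∧
      (r = (bridgeR K a b - b) / (b - a) ∨ r = (a - bridgeL K a b) / (b - a))} := by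
    refine ⟨0, ?_⟩
    rintro r ⟨a, b, hab, rfl | rfl⟩
    · exact div_nonneg (sub_nonneg.2 (le_bridgeR hK hab)) (sub_nonneg.2 hab.1.le)
    · exact div_nonneg (sub_nonneg.2 (bridgeL_le hK hab)) (sub_nonneg.2 hab.1.le)
  have hba : 0 < b - a := sub_pos.2 h.1
  constructor
  · rw [← le_div_iff₀ hba]
    exact csInf_le hbdd ⟨a, b, h, Or.inl rfl⟩
  · rw [← le_div_iff₀ hba]
    exact csInf_le hbdd ⟨a, b, h, Or.inr rfl⟩

lemma nice_of_cantor {K : Set ℝ} (hK : IsCantor K) : Nice (thickness K) K := by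
  obtain ⟨hne, hc, hperf, htd⟩ := hK
  refine ⟨hc, hne, ?_, ?_, ?_, ?_, ?_⟩
  · intro x hx ε hε
    have h := hperf.acc x hx
    rw [accPt_iff_nhds] at h
    obtain ⟨y, ⟨hy1, hy2⟩, hy3⟩ := h (Metric.ball x ε) (Metric.ball_mem_nhds x hε)
    rw [Metric.mem_ball, Real.dist_eq] at hy1
    exact ⟨y, hy2, hy3, hy1⟩
  · intro x hx y hy hxy
    by_contra hcon
    push Not at hcon
    have hsub : Icc x y ⊆ K := by
      intro z hz
      rcases hz.1.eq_or_lt with h | h
      · rw [← h]; exact hx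
      rcases hz.2.eq_or_lt with h' | h'
      · rw [h']; exact hy
      exact hcon z ⟨h, h'⟩
    have := htd (Icc x y) hsub isPreconnected_Icc (left_mem_Icc.2 hxy.le) (right_mem_Icc.2 hxy.le)
    exact hxy.ne this
  · intro a b c d hab hcd hbc
    rcases le_total (b - a) (d - c) with h | h
    · rw [min_eq_left h]
      refine (thickness_le hc hab).1.trans ?_
      have : bridgeR K a b ≤ c := csInf_le (bdd_bridgeR hc hab) (Or.inr ⟨d, hcd, hbc, h⟩)
      linarith
    · rw [min_eq_right h]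
      refine (thickness_le hc hcd).2.trans ?_
      have : b ≤ bridgeL K c d := le_csSup (bdd_bridgeL hc hcd) (Or.inr ⟨a, hab, hbc, h⟩)
      linarith
  · intro a b hab
    refine (thickness_le hc hab).1.trans ?_
    have : bridgeR K a b ≤ sSup K := csInf_le (bdd_bridgeR hc hab) (Or.inl rfl)
    linarith
  · intro a b hab
    refine (thickness_le hc hab).2.trans ?_
    have : sInf K ≤ bridgeL K a b := le_csSup (bdd_bridgeL hc hab) (Or.inl rfl)
    linarith

/-! ### Reflection -/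

lemma IsGap.neg {K : Set ℝ} {a b : ℝ} (h : IsGap (-K) a b) : IsGap K (-b) (-a) := by
  obtain ⟨h1, h2, h3, h4⟩ := h
  refine ⟨by linarith, h3, h2, fun x hx hxK => ?_⟩
  refine h4 (-x) ⟨by linarith [hx.2], by linarith [hx.1]⟩ ?_
  rw [Set.mem_neg, neg_neg]
  exact hxK

lemma Nice.neg {τ : ℝ} {K : Set ℝ} (h : Nice τ K) : Nice τ (-K) := by
  refine ⟨h.compact.neg, h.ne.neg, ?_, ?_, ?_, ?_, ?_⟩
  · intro x hx ε hε
    obtain ⟨y, hy, hyx, hd⟩ := h.acc (-x) hx ε hε
    refine ⟨-y, by rw [Set.mem_neg, neg_neg]; exact hy, fun he => hyx (by rw [← he, neg_neg]), ?_⟩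
    have : -y - x = -(y - -x) := by ring
    rw [this, abs_neg]
    exact hd
  · intro x hx y hy hxy
    obtain ⟨z, hz, hzK⟩ := h.hole (-y) hy (-x) hx (by linarith)
    refine ⟨-z, ⟨by linarith [hz.2], by linarith [hz.1]⟩, ?_⟩
    rw [Set.mem_neg, neg_neg]
    exact hzK
  · intro a b c d hab hcd hbc
    have := h.pair _ _ _ _ hcd.neg hab.neg (by linarith)
    rw [min_comm]
    have e1 : -a - -b = b - a := by ring
    have e2 : -c - -d = d - c := by ring
    have e3 : -b - -c = c - b := by ring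
    rwa [e1, e2, e3] at this
  · intro a b hab
    have := h.left _ _ hab.neg
    rw [csSup_neg h.ne h.compact.bddBelow]
    linarith
  · intro a b hab
    have := h.right _ _ hab.neg
    rw [csInf_neg h.ne h.compact.bddAbove]
    linarith

/-! ### The main theorem -/

lemma strict {f : ℝ → ℝ} (hf : ContDiff ℝ 1 f) {ε : ℝ} (hε : 0 < ε) :
    ∃ r > 0, ∀ s t, 0 ≤ s → s ≤ t → t ≤ r →
      |f t - f s - deriv f 0 * (t - s)| ≤ ε * (t - s) := by
  have h1 : HasStrictDerivAt f (deriv f 0) 0 :=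
    hf.contDiffAt.hasStrictDerivAt one_ne_zero
  have h2 := h1.isLittleO.def hε
  rw [nhds_prod_eq] at h2
  have h3 : ∀ᶠ p : ℝ × ℝ in 𝓝 ((0 : ℝ), (0 : ℝ)), ‖f p.1 - f p.2 -
      (ContinuousLinearMap.toSpanSingleton ℝ (deriv f 0)) (p.1 - p.2)‖ ≤ ε * ‖p.1 - p.2‖ := by
    rw [nhds_prod_eq]
    exact h2
  obtain ⟨r, hr, h4⟩ := Metric.eventually_nhds_iff.1 h3
  refine ⟨r / 2, by positivity, fun s t h5 h6 h7 => ?_⟩
  have h8 := @h4 (t, s) (by
    rw [Prod.dist_eq, max_lt_iff]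
    simp only [Real.dist_eq, sub_zero]
    rw [abs_of_nonneg h5, abs_of_nonneg (by linarith)]
    constructor <;> linarith)
  simp only [ContinuousLinearMap.toSpanSingleton_apply, smul_eq_mul, Real.norm_eq_abs] at h8
  rw [abs_of_nonneg (sub_nonneg.2 h6), mul_comm (t - s) (deriv f 0)] at h8
  exact h8

/-- **Theorem.** If `K ⊆ ℝ` is a Cantor set of Newhouse thickness `τ(K) > 1` and `f` is a `C¹`
function with `f 0 = 0` and `f' 0 > 0`, then there are `x` and `t > 0` such that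
`x - t, x, x + f t` all lie in `K`. -/
theorem result (K : Set ℝ) (hK : IsCantor K) (hτ : 1 < thickness K) (f : ℝ → ℝ)
    (hf : ContDiff ℝ 1 f) (hf0 : f 0 = 0) (hf' : 0 < deriv f 0) :
    ∃ x t : ℝ, 0 < t ∧ {x - t, x, x + f t} ⊆ K := by
  have hN := nice_of_cantor hK
  rcases le_or_gt 1 (deriv f 0) with hm | hm
  · obtain ⟨x, t, ht, -, h1, h2, h3⟩ := main hτ hN f hf0 hm (fun ε hε => strict hf hε) one_pos
    refine ⟨x, t, ht, ?_⟩
    rintro y (rfl | rfl | rfl)
    · exact h1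
    · exact h2
    · exact h3
  · -- the inverse function
    obtain ⟨m, hm'⟩ : ∃ m, m = deriv f 0 := ⟨_, rfl⟩
    rw [← hm'] at hm hf'
    obtain ⟨r₀, hr₀, hr⟩ := strict hf (half_pos hf')
    rw [← hm'] at hr
    have hlow : ∀ s t, 0 ≤ s → s ≤ t → t ≤ r₀ → m / 2 * (t - s) ≤ f t - f s := by
      intro s t h1 h2 h3
      have := (abs_le.1 (hr s t h1 h2 h3)).1
      linarith
    have hinj : InjOn f (Icc 0 r₀) := by
      have hmono : StrictMonoOn f (Icc 0 r₀) := by
        intro s hs t ht hst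
        have := hlow s t hs.1 hst.le ht.2
        have h2 : 0 < m / 2 * (t - s) := mul_pos (by linarith) (by linarith)
        linarith
      exact hmono.injOn
    obtain ⟨g, hg⟩ : ∃ g, g = Function.invFunOn f (Icc 0 r₀) := ⟨_, rfl⟩
    have hfr : 0 < f r₀ := by
      have := hlow 0 r₀ le_rfl hr₀.le le_rfl
      rw [hf0] at this
      have h2 : 0 < m / 2 * (r₀ - 0) := mul_pos (by linarith) (by linarith)
      linarith
    have hsurj : ∀ s, 0 ≤ s → s ≤ f r₀ → g s ∈ Icc 0 r₀ ∧ f (g s) = s := by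
      intro s h1 h2
      have h3 := intermediate_value_Icc hr₀.le hf.continuous.continuousOn (f := f)
      rw [hf0] at h3
      have h4 : ∃ a ∈ Icc 0 r₀, f a = s := h3 ⟨h1, h2⟩
      rw [hg]
      exact ⟨Function.invFunOn_mem h4, Function.invFunOn_eq h4⟩
    have hg0 : g 0 = 0 := by
      obtain ⟨h1, h2⟩ := hsurj 0 le_rfl hfr.le
      exact hinj h1 ⟨le_rfl, hr₀.le⟩ (by rw [h2, hf0])
    have hgmono : ∀ s t, 0 ≤ s → s ≤ t → t ≤ f r₀ → g s ≤ g t := by
      intro s t h1 h2 h3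
      by_contra hc
      push Not at hc
      obtain ⟨h4, h5⟩ := hsurj s h1 (h2.trans h3)
      obtain ⟨h6, h7⟩ := hsurj t (h1.trans h2) h3
      have := hlow (g t) (g s) h6.1 hc.le h4.2
      rw [h5, h7] at this
      have h8 : 0 < m / 2 * (g s - g t) := mul_pos (by linarith) (by linarith)
      linarith
    have hgd : ∀ ε > 0, ∃ r > 0, ∀ s t, 0 ≤ s → s ≤ t → t ≤ r →
        |g t - g s - 1 / m * (t - s)| ≤ ε * (t - s) := by
      intro ε hε
      obtain ⟨r₁, hr₁, hr1⟩ := strict hf (show 0 < ε * m ^ 2 / 2 by positivity)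
      rw [← hm'] at hr1
      refine ⟨min (f r₀) (m / 2 * r₁), lt_min hfr (by positivity), fun s t h1 h2 h3 => ?_⟩
      have h4 := h3.trans (min_le_left _ _)
      have h5 := h3.trans (min_le_right _ _)
      obtain ⟨h6, h7⟩ := hsurj s h1 (h2.trans h4)
      obtain ⟨h8, h9⟩ := hsurj t (h1.trans h2) h4
      have h10 := hgmono s t h1 h2 h4
      have h11 := hlow (g s) (g t) h6.1 h10 h8.2
      rw [h7, h9] at h11
      have h12 : g t ≤ r₁ := by
        have := hlow 0 (g t) le_rfl h8.1 h8.2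
        rw [hf0, h9, sub_zero, sub_zero] at this
        have h13 : m / 2 * g t ≤ m / 2 * r₁ := by linarith
        exact le_of_mul_le_mul_left h13 (by linarith)
      have h13 := hr1 (g s) (g t) h6.1 h10 h12
      rw [h7, h9] at h13
      have e1 : g t - g s - 1 / m * (t - s) = -(1 / m) * (t - s - m * (g t - g s)) := by
        field_simp
        ring
      rw [e1, abs_mul, abs_neg, abs_of_pos (by positivity : 0 < 1 / m)]
      calc 1 / m * |t - s - m * (g t - g s)| ≤ 1 / m * (ε * m ^ 2 / 2 * (g t - g s)) :=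
            mul_le_mul_of_nonneg_left h13 (by positivity)
        _ = ε * (m / 2 * (g t - g s)) := by field_simp
        _ ≤ ε * (t - s) := mul_le_mul_of_nonneg_left h11 hε.le
    obtain ⟨x, t, ht, htρ, h1, h2, h3⟩ := main hτ hN.neg g hg0 (m := 1 / m)
      (by rw [le_div_iff₀ hf']; linarith) hgd hfr
    obtain ⟨h4, h5⟩ := hsurj t ht.le htρ.le
    refine ⟨-x, g t, ?_, ?_⟩
    · rcases h4.1.eq_or_lt with h | h
      · rw [← h, hf0] at h5
        exact absurd h5 ht.ne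
      · exact h
    · rintro y (rfl | rfl | rfl)
      · rw [Set.mem_neg] at h3
        have e : -(x + g t) = -x - g t := by ring
        rwa [e] at h3
      · exact h2
      · rw [Set.mem_neg] at h1
        have e : -(x - t) = -x + f (g t) := by rw [h5]; ring
        rwa [e] at h1

end Pool.Agent.Results.MP_4ff6b6_an.ThreePoint
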